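import Pool.Agent.N3.RS.Main

/-!
# Not every Besicovitch set has strip coverings of small total width (Rogers' question Q1)

There are a Besicovitch set `E` (bounded, Lebesgue null, with a unit segment in every direction) and
an `ε > 0` such that every finite or countable covering of `E` by strips has total width at least `ε`
(one may take `ε = 1 / 180`).

`E` is the union of a Besicovitch set and of the compact null set `F` of all points of the parabolic
arcs `y = x ^ 2 + c`, `0 ≤ x ≤ 1`, where `c` runs through the Cantor set `R` of the numbers with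
digits `0, 1, 2` in base four.  The natural measure on `F` gives a strip of width `w` at most the mass
`90 w`, whatever its direction: this is where the dimension of `R`, which is larger than `1 / 2`, is
used.  In fact every strip covering of `F` alone has total width at least `1 / 180`.
-/

set_option autoImplicit false

open MeasureTheory Set

namespace Pool.Agent.Results.MP_6b55e5_an.WideBesicovitchSet

/-- The Euclidean plane. -/
abbrev Plane : Type := EuclideanSpace ℝ (Fin 2)

/-- `S` is a closed strip of width `w > 0`: the closed set between the two parallel lines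
`⟪u, x⟫ = c` and `⟪u, x⟫ = c + w`, where `u` is a unit vector. -/
def IsStrip (S : Set Plane) (w : ℝ) : Prop :=
  0 < w ∧ ∃ (u : Plane) (c : ℝ), ‖u‖ = 1 ∧ S = {x | c ≤ inner ℝ u x ∧ inner ℝ u x ≤ c + w}

/-- A Besicovitch set: bounded, Lebesgue null, with a closed unit segment in every direction. -/
def IsBesicovitch (E : Set Plane) : Prop :=
  Bornology.IsBounded E ∧ volume E = 0 ∧
    ∀ e : Plane, ‖e‖ = 1 → ∃ x : Plane, segment ℝ x (x + e) ⊆ E

/-- **There are a Besicovitch set `E` and an `ε > 0` such that every finite or countably infinite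
strip covering of `E` has total width at least `ε`.** -/
theorem result : ∃ (E : Set Plane) (ε : ℝ), IsBesicovitch E ∧ 0 < ε ∧
    ∀ (ι : Type) [Countable ι] (S : ι → Set Plane) (w : ι → ℝ),
      (∀ i, IsStrip (S i) (w i)) → E ⊆ ⋃ i, S i →
        ENNReal.ofReal ε ≤ ∑' i, ENNReal.ofReal (w i) := by
  obtain ⟨E, hE, -⟩ := Pool.Agent.Results.MP_6b55e5_an.RogersQ2.result
  refine ⟨E ∪ Pool.Agent.N3.RS.F, 1 / 180, Pool.Agent.N3.RS.union_F hE, by norm_num, ?_⟩
  intro ι hι S w hS hcov
  by_contra hcon
  push Not at hcon
  have hfin : ∑' i, ENNReal.ofReal (w i) ≠ ⊤ := (hcon.trans ENNReal.ofReal_lt_top).ne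
  have hw : ∀ i, 0 ≤ w i := fun i => (hS i).1.le
  have hsum : Summable w := by
    have := ENNReal.summable_toReal hfin
    simpa [ENNReal.toReal_ofReal, hw] using this
  have htsum : ∑' i, w i < 1 / 180 := by
    rw [← ENNReal.ofReal_tsum_of_nonneg hw hsum] at hcon
    exact (ENNReal.ofReal_lt_ofReal_iff (by norm_num)).1 hcon
  exact Pool.Agent.N3.RS.not_cover
    ⟨ι, hι, S, w, hS, subset_union_right.trans hcov, hsum, htsum⟩

end Pool.Agent.Results.MP_6b55e5_an.WideBesicovitchSet
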